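import Mathlib

/-!
# MP_c44e76_an: shadowing for the inverse of a closed relation containing the diagonal

We prove that if `G` is a closed relation on a compact Hausdorff space `X` with `Δ_X ⊆ G` and
`(X, G)` has the `(2,2)`-shadowing property, then `(X, G⁻¹)` has the `(2,2)`-shadowing property, and
hence the `(1,2)`-shadowing property.

Proof: a finite piece of a `G⁻¹`-pseudo-orbit is, read backwards and slightly modified, a piece of a
`G`-pseudo-orbit, which is continued by a constant sequence since `Δ_X ⊆ G`; shadow it, read it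
backwards, and use compactness.
-/

set_option autoImplicit false
open Filter Topology Uniformity

namespace Pool.Agent.Results.MP_c44e76_an.InverseShadowing

/-- The two ways of quantifying: `all` is the index `1` and `some` is the index `2` of the problem. -/
inductive Mode where
  /-- index `1` -/
  | all : Mode
  /-- index `2` -/
  | some : Mode

variable {X : Type*}

/-- The domain `D(G) = {x : G(x) ≠ ∅}`. -/
def dom (G : Set (X × X)) : Set X := {x | ∃ y, (x, y) ∈ G}

/-- The inverse relation `G⁻¹ = {(x, y) : (y, x) ∈ G}`. -/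
def inv (G : Set (X × X)) : Set (X × X) := {p | (p.2, p.1) ∈ G}

/-- `t` is a trajectory of `x`: `t 0 = x` and `(t n, t (n+1)) ∈ G` for every `n`. -/
def IsTrajectory (G : Set (X × X)) (x : X) (t : ℕ → X) : Prop :=
  t 0 = x ∧ ∀ n, (t n, t (n + 1)) ∈ G

/-- `x` is legal: it has a trajectory. -/
def Legal (G : Set (X × X)) (x : X) : Prop := ∃ t, IsTrajectory G x t

/-- `(V, i)`-pseudo-orbits: sequences in `D(G)` such that, for every `n`, `(x (n+1), y) ∈ V` for all
(`i = 1`), respectively for some (`i = 2`), `y ∈ G(x n)`. -/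
def IsPseudoOrbit (G V : Set (X × X)) : Mode → (ℕ → X) → Prop
  | Mode.all, x => (∀ n, x n ∈ dom G) ∧ ∀ n, ∀ y, (x n, y) ∈ G → (x (n + 1), y) ∈ V
  | Mode.some, x => (∀ n, x n ∈ dom G) ∧ ∀ n, ∃ y, (x n, y) ∈ G ∧ (x (n + 1), y) ∈ V

/-- The point `y` `(U, j)`-shadows the sequence `x`: for all (`j = 1`), respectively for some
(`j = 2`), trajectories `t` of `y` one has `(x n, t n) ∈ U` for every `n`. -/
def ShadowedBy (G U : Set (X × X)) : Mode → (ℕ → X) → X → Prop
  | Mode.all, x, y => ∀ t, IsTrajectory G y t → ∀ n, (x n, t n) ∈ U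
  | Mode.some, x, y => ∃ t, IsTrajectory G y t ∧ ∀ n, (x n, t n) ∈ U

/-- The `(i, j)`-shadowing property of `(X, G)`. -/
def HasShadowing [UniformSpace X] (G : Set (X × X)) (i j : Mode) : Prop :=
  ∀ U ∈ 𝓤 X, ∃ V ∈ 𝓤 X, ∀ x : ℕ → X, IsPseudoOrbit G V i x →
    ∃ y, Legal G y ∧ ShadowedBy G U j x y

/-- A `(V,1)`-pseudo-orbit is a `(V,2)`-pseudo-orbit. -/
lemma IsPseudoOrbit.toSome {G V : Set (X × X)} {i : Mode} {x : ℕ → X}
    (h : IsPseudoOrbit G V i x) : IsPseudoOrbit G V Mode.some x := by
  cases i with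
  | all =>
    refine ⟨h.1, fun n => ?_⟩
    obtain ⟨y, hy⟩ := h.1 n
    exact ⟨y, hy, h.2 n y hy⟩
  | some => exact h

/-- If `G` is a closed relation on a compact Hausdorff space which contains the diagonal, and
`(X, G)` has the `(2,2)`-shadowing property, then `(X, G⁻¹)` has the `(2,2)`-shadowing property
(and the `(1,2)`-shadowing property). -/
theorem result [UniformSpace X] [CompactSpace X] [T2Space X] [Nonempty X]
    (G : Set (X × X)) (hG : IsClosed G) (hΔ : ∀ x : X, (x, x) ∈ G)
    (hsh : HasShadowing G Mode.some Mode.some) (i : Mode) :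
    HasShadowing (inv G) i Mode.some := by
  intro U hU
  -- a closed symmetric entourage `W` with `W ○ W ⊆ U`
  obtain ⟨W, hW, hWU⟩ := comp_mem_uniformity_sets hU
  obtain ⟨C, ⟨hC, hCcl⟩, hCW⟩ := uniformity_hasBasis_closed.mem_iff.1 hW
  obtain ⟨V, hV, hVsh⟩ := hsh (C ∩ Prod.swap ⁻¹' C)
    (Filter.inter_mem hC (tendsto_swap_uniformity hC))
  refine ⟨(V ∩ Prod.swap ⁻¹' V) ∩ W,
    Filter.inter_mem (Filter.inter_mem hV (tendsto_swap_uniformity hV)) hW, ?_⟩
  intro x hx
  obtain ⟨-, hx⟩ := hx.toSome
  choose z hz hzx using hx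
  -- `hz n : (z n, x n) ∈ G`, `hzx n : (x (n+1), z n) ∈ V`
  have hz' : ∀ n, (z n, x n) ∈ G := hz
  -- finite shadowing
  have hfin : ∀ N : ℕ, ∃ u : ℕ → X, (∀ n < N, (u (n + 1), u n) ∈ G) ∧
      (x 0, u 0) ∈ C ∧ ∀ n < N, (z n, u (n + 1)) ∈ C := by
    intro N
    let w : ℕ → X := fun k => if k < N then z (N - 1 - k) else x 0
    have hw : IsPseudoOrbit G V Mode.some w := by
      refine ⟨fun n => ⟨w n, hΔ _⟩, fun k => ?_⟩
      by_cases hk : k + 1 < N
      · refine ⟨x (N - 1 - k), ?_, ?_⟩
        · have : w k = z (N - 1 - k) := if_pos (by omega)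
          rw [this]; exact hz' _
        · have h1 : w (k + 1) = z (N - 1 - (k + 1)) := if_pos hk
          have h2 := (hzx (N - 1 - (k + 1))).1.2
          rw [h1]
          have h3 : N - 1 - (k + 1) + 1 = N - 1 - k := by omega
          rw [h3] at h2
          exact h2
      · have h1 : w (k + 1) = x 0 := if_neg hk
        rw [h1]
        refine ⟨x 0, ?_, refl_mem_uniformity hV⟩
        by_cases hk2 : k < N
        · have : w k = z 0 := by
            have h2 : w k = z (N - 1 - k) := if_pos hk2
            rw [h2]; congr 1; omega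
          rw [this]; exact hz' 0
        · have : w k = x 0 := if_neg hk2
          rw [this]; exact hΔ _
    obtain ⟨y, -, t, ht, hwt⟩ := hVsh w hw
    refine ⟨fun n => t (N - n), ?_, ?_, ?_⟩
    · intro n hn
      have h1 := ht.2 (N - (n + 1))
      have h2 : N - (n + 1) + 1 = N - n := by omega
      rw [h2] at h1
      exact h1
    · have h1 := (hwt N).1
      have h2 : w N = x 0 := if_neg (lt_irrefl _)
      rw [h2] at h1
      simpa using h1
    · intro n hn
      have h1 := (hwt (N - (n + 1))).1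
      have h2 : w (N - (n + 1)) = z (N - 1 - (N - (n + 1))) := if_pos (by omega)
      have h3 : N - 1 - (N - (n + 1)) = n := by omega
      rw [h2, h3] at h1
      exact h1
  -- compactness
  let K : ℕ → Set (ℕ → X) := fun N =>
    {u | (∀ n < N, (u (n + 1), u n) ∈ G) ∧ (x 0, u 0) ∈ C ∧ ∀ n < N, (z n, u (n + 1)) ∈ C}
  have hKcl : ∀ N, IsClosed (K N) := by
    intro N
    have h1 : IsClosed {u : ℕ → X | ∀ n < N, (u (n + 1), u n) ∈ G} := by
      simp only [Set.ofPred_forall]
      refine isClosed_iInter fun n => isClosed_iInter fun _ => hG.preimage ?_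
      exact (continuous_apply (n + 1)).prodMk (continuous_apply n)
    have h2 : IsClosed {u : ℕ → X | (x 0, u 0) ∈ C} :=
      hCcl.preimage (continuous_const.prodMk (continuous_apply 0))
    have h3 : IsClosed {u : ℕ → X | ∀ n < N, (z n, u (n + 1)) ∈ C} := by
      simp only [Set.ofPred_forall]
      refine isClosed_iInter fun n => isClosed_iInter fun _ => hCcl.preimage ?_
      exact continuous_const.prodMk (continuous_apply (n + 1))
    exact h1.inter (h2.inter h3)
  have hKne : (⋂ N, K N).Nonempty := by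
    apply IsCompact.nonempty_iInter_of_sequence_nonempty_isCompact_isClosed K
    · intro N u hu
      exact ⟨fun n hn => hu.1 n (by omega), hu.2.1, fun n hn => hu.2.2 n (by omega)⟩
    · intro N
      obtain ⟨u, hu⟩ := hfin N
      exact ⟨u, hu⟩
    · exact (hKcl 0).isCompact
    · exact hKcl
  obtain ⟨u, hu⟩ := hKne
  rw [Set.mem_iInter] at hu
  have htraj : IsTrajectory (inv G) (u 0) u := ⟨rfl, fun n => (hu (n + 1)).1 n (by omega)⟩
  refine ⟨u 0, ⟨u, htraj⟩, u, htraj, ?_⟩
  intro n
  cases n with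
  | zero =>
    exact hWU (SetRel.prodMk_mem_comp (hCW (hu 0).2.1) (refl_mem_uniformity hW))
  | succ n =>
    exact hWU (SetRel.prodMk_mem_comp (hzx n).2 (hCW ((hu (n + 1)).2.2 n (by omega))))

end Pool.Agent.Results.MP_c44e76_an.InverseShadowing
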